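import Pool.Agent.EGF.StmtsS

/-! Squad EGF (MP_1090a0_co), block S, row CL4 (helper32): everything after the flat set. -/

set_option autoImplicit false

open Finset Filter

namespace Pool.Agent.EGF.H32

theorem log16' : Real.log 16 ≤ 3 := by
  have h : (16 : ℝ) = 2 ^ 4 := by norm_num
  rw [h, Real.log_pow]
  have := Real.log_two_lt_d9
  push_cast
  linarith

/-- `a + b log (k + 1) ≤ c √k` for large `k` (helper68) -/
theorem ev_log {a b c : ℝ} (ha : 0 ≤ a) (hb : 0 ≤ b) (hc : 0 < c) :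
    ∀ᶠ k : ℕ in atTop, a + b * Real.log ((k : ℝ) + 1) ≤ c * √(k : ℝ) := by
  have ht : Tendsto (fun k : ℕ => √(√((k : ℝ) + 1))) atTop atTop := by
    refine Real.tendsto_sqrt_atTop.comp (Real.tendsto_sqrt_atTop.comp ?_)
    exact tendsto_atTop_add_const_right _ _ tendsto_natCast_atTop_atTop
  filter_upwards [ht.eventually_ge_atTop 1, ht.eventually_ge_atTop ((a + 4 * b + c) / c)]
    with k h1 h2
  set u : ℝ := √(√((k : ℝ) + 1)) with hu
  have hk0 : (0 : ℝ) ≤ k := Nat.cast_nonneg k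
  have hu2 : u ^ 2 = √((k : ℝ) + 1) := Real.sq_sqrt (Real.sqrt_nonneg _)
  have hu4 : u ^ 4 = (k : ℝ) + 1 := by
    have : u ^ 4 = (u ^ 2) ^ 2 := by ring
    rw [this, hu2, Real.sq_sqrt (by linarith)]
  have hlog : Real.log ((k : ℝ) + 1) ≤ 4 * u := by
    rw [← hu4, Real.log_pow]
    have := Real.log_le_sub_one_of_pos (show (0 : ℝ) < u by linarith)
    push_cast
    linarith
  have hsq : u ^ 2 - 1 ≤ √(k : ℝ) := by
    rw [hu2]
    have h3 : √((k : ℝ) + 1) ≤ √(k : ℝ) + 1 := by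
      rw [Real.sqrt_le_left (by positivity)]
      nlinarith [Real.sq_sqrt hk0, Real.sqrt_nonneg (k : ℝ)]
    linarith
  have h5 : a + 4 * b + c ≤ c * u := by
    rw [div_le_iff₀ hc] at h2
    linarith
  have h6 : (a + 4 * b + c) * u ≤ c * u * u := mul_le_mul_of_nonneg_right h5 (by linarith)
  have h7 : b * Real.log ((k : ℝ) + 1) ≤ b * (4 * u) := mul_le_mul_of_nonneg_left hlog hb
  have h8 : c * (u ^ 2 - 1) ≤ c * √(k : ℝ) := mul_le_mul_of_nonneg_left hsq hc.le
  have h9 : a ≤ a * u := le_mul_of_one_le_right ha h1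
  have h10 : c ≤ c * u := le_mul_of_one_le_right hc.le h1
  nlinarith

/-- the scales -/
def Es (C : ℕ) : ℕ → ℕ
  | 0 => 4
  | j + 1 => C * (Es C j) ^ 2

theorem Es_four {C : ℕ} (hC : 4 ≤ C) (j : ℕ) : 4 ≤ Es C j := by
  induction j with
  | zero => exact le_rfl
  | succ j ih =>
    rw [Es]
    nlinarith

theorem Es_step {C : ℕ} (hC : 4 ≤ C) (j : ℕ) : 4 * Es C j ≤ Es C (j + 1) := by
  have h := Es_four hC j
  rw [Es]
  have h1 : Es C j ≤ Es C j ^ 2 := by nlinarith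
  exact Nat.mul_le_mul hC h1

theorem Es_mono {C : ℕ} (hC : 4 ≤ C) {i j : ℕ} (h : i ≤ j) : Es C i ≤ Es C j := by
  refine monotone_nat_of_le_succ (fun n => ?_) h
  have := Es_step hC n
  omega

/-- the last inequality of the row STG -/
theorem last_ineq {θ R D C ls N w Hc lk t : ℝ} (hθ : 0 < θ) (hR : 1 ≤ R) (hD : 4 ≤ D)
    (hC4 : 4 ≤ C) (hN : 0 < N) (hw : w = θ / (2 * R * (8 * D + 1)))
    (hC : 2304 * R * ls / θ ≤ C)
    (hc : 8 * Hc * ls + w * lk ≤ w * (N / (16 * D))) (ht : t ≤ (1 - 1 / (4 * D)) * N) :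
    4 * (N / (C * D ^ 2) + Hc) * (2 * ls) < w * (N - t - lk) := by
  have hD0 : 0 < D := by linarith
  have hR0 : 0 < R := by linarith
  have hC0 : 0 < C := by linarith
  have hw0 : 0 < w := by
    rw [hw]
    positivity
  have h1 : N / (4 * D) ≤ N - t := by
    have h2 : (1 - 1 / (4 * D)) * N = N - N / (4 * D) := by
      field_simp
    linarith
  have h3 : 8 * (N / (C * D ^ 2)) * ls ≤ w * (N / (16 * D)) := by
    have hw1 : θ / (18 * R * D) ≤ w := by
      rw [hw]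
      apply div_le_div_of_nonneg_left hθ.le (by positivity)
      nlinarith
    have h4 : 2304 * R * ls ≤ C * θ := by
      rwa [div_le_iff₀ hθ] at hC
    have h5 : 8 * (N / (C * D ^ 2)) * ls ≤ θ / (18 * R * D) * (N / (16 * D)) := by
      rw [div_mul_div_comm, mul_div_assoc', div_mul_eq_mul_div,
        div_le_div_iff₀ (by positivity) (by positivity)]
      have h6 : 0 ≤ N * D ^ 2 := by positivity
      have h7 := mul_le_mul_of_nonneg_right h4 h6
      nlinarith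
    have h8 : 0 ≤ N / (16 * D) := by positivity
    exact h5.trans (mul_le_mul_of_nonneg_right hw1 h8)
  have h9 : w * (N / (16 * D)) = w * (N / (4 * D)) / 4 := by
    field_simp
    norm_num
  have h10 : 0 < w * (N / (4 * D)) := by positivity
  have h11 : w * (N / (4 * D)) ≤ w * (N - t) := mul_le_mul_of_nonneg_left h1 hw0.le
  have h12 : w * (N - t - lk) = w * (N - t) - w * lk := by ring
  have h13 : 4 * (N / (C * D ^ 2) + Hc) * (2 * ls) =
      8 * (N / (C * D ^ 2)) * ls + 8 * Hc * ls := by ring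
  rw [h12, h13]
  linarith

theorem cl4 (hRCT : RctStmt) (hSPR : SprStmt) (hSAP : SapStmt) (hGRD : GrdStmt)
    (hSTG : StgStmt) : Cl4Stmt := by
  intro θ L hθ hθ1 hL
  -- the constant `s`
  obtain ⟨s, hsdef⟩ : ∃ s : ℕ, s = ⌈4000 * L⌉₊ + 33 := ⟨_, rfl⟩
  have hsL : 4000 * L + 33 ≤ (s : ℝ) := by
    rw [hsdef]
    push_cast
    linarith [Nat.le_ceil (4000 * L)]
  have hspos : (0 : ℝ) < s := by linarith
  have hs2 : 2 ≤ s := by omega
  have hls : 1 ≤ Real.log s := by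
    have h1 : Real.exp 1 ≤ s := by linarith [Real.exp_one_lt_d9]
    exact (Real.le_log_iff_exp_le hspos).2 h1
  -- `q`, `ι`, `R`
  obtain ⟨q, hq⟩ : ∃ q : ℝ, q = 1 / (4 * (s : ℝ) ^ 2) := ⟨_, rfl⟩
  have hq0 : 0 < q := by
    rw [hq]
    positivity
  have hq1 : q ≤ 1 := by
    rw [hq, div_le_one (by positivity)]
    nlinarith
  obtain ⟨ι, hι⟩ : ∃ ι : ℝ, ι = q ^ 4 / 1600 := ⟨_, rfl⟩
  have hι0 : 0 < ι := by
    rw [hι]
    positivity
  have hι1 : ι ≤ 1 := by
    rw [hι]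
    have : q ^ 4 ≤ 1 := pow_le_one₀ hq0.le hq1
    linarith
  obtain ⟨R, hR⟩ : ∃ R : ℕ, R = ⌈1 / ι⌉₊ + 1 := ⟨_, rfl⟩
  have hRι : 1 ≤ R * ι := by
    have h1 : 1 / ι ≤ R := by
      rw [hR]
      push_cast
      linarith [Nat.le_ceil (1 / ι)]
    rwa [div_le_iff₀ hι0] at h1
  have hR1 : (1 : ℝ) ≤ R := by
    rw [hR]
    push_cast
    linarith [Nat.cast_nonneg (α := ℝ) ⌈1 / ι⌉₊]
  -- `C` and the scales
  obtain ⟨C, hCdef⟩ : ∃ C : ℕ, C = ⌈2304 * R * Real.log s / θ⌉₊ + 4 := ⟨_, rfl⟩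
  have hC4 : 4 ≤ C := by omega
  have hCr : 2304 * R * Real.log s / θ ≤ (C : ℝ) := by
    rw [hCdef]
    push_cast
    linarith [Nat.le_ceil (2304 * R * Real.log s / θ)]
  have hC4' : (4 : ℝ) ≤ C := by exact_mod_cast hC4
  have hE4 : ∀ j, (4 : ℝ) ≤ Es C j := fun j => by exact_mod_cast Es_four hC4 j
  have hE0 : ∀ j, (0 : ℝ) < Es C j := fun j => by linarith [hE4 j]
  have hEs : ∀ j, ((Es C (j + 1) : ℕ) : ℝ) = C * (Es C j : ℝ) ^ 2 := fun j => by
    rw [Es]
    push_cast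
    rfl
  have hE4s : ∀ j, 4 * (Es C j : ℝ) ≤ Es C (j + 1) := fun j => by
    exact_mod_cast Es_step hC4 j
  have hEm : ∀ j, j ≤ R → (Es C j : ℝ) ≤ Es C R := fun j hj => by
    exact_mod_cast Es_mono hC4 hj
  -- weights
  obtain ⟨w, hw⟩ : ∃ w : ℕ → ℝ, ∀ j, w j = θ / (2 * R * (8 * (Es C j : ℝ) + 1)) :=
    ⟨_, fun j => rfl⟩
  have hw0 : ∀ j, 0 < w j := fun j => by
    rw [hw]
    have := hE0 j
    positivity
  have hw1 : ∀ j, w j ≤ 1 := fun j => by
    rw [hw, div_le_one (by have := hE0 j; positivity)]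
    nlinarith [hE4 j]
  have hwm : ∀ j, j ≤ R → w R ≤ w j := fun j hj => by
    rw [hw, hw]
    have h1 := hE0 j
    apply div_le_div_of_nonneg_left hθ.le (by positivity)
    have h2 := hEm j hj
    nlinarith
  obtain ⟨κ, hκ⟩ : ∃ κ : ℝ, κ = (w R / 24) ^ 2 := ⟨_, rfl⟩
  have hκ0 : 0 < κ := by
    rw [hκ]
    have := hw0 R
    positivity
  have hκs : √κ = w R / 24 := by
    rw [hκ, Real.sqrt_sq (by have := hw0 R; positivity)]
  have hκ1 : κ ≤ 1 := by
    rw [hκ]
    have h1 := hw0 R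
    have h2 := hw1 R
    apply pow_le_one₀ (by positivity)
    linarith
  obtain ⟨ρ, hρ⟩ : ∃ ρ : ℝ, ρ = ι * κ / 4 := ⟨_, rfl⟩
  have hρ0 : 0 < ρ := by
    rw [hρ]
    positivity
  have hρ1 : ρ ≤ 1 := by
    rw [hρ]
    nlinarith
  obtain ⟨H, hH⟩ : ∃ H : ℝ, H = 2 / (ι * ρ ^ 2) := ⟨_, rfl⟩
  have hH0 : 0 < H := by
    rw [hH]
    positivity
  have hER0 := hE0 R
  -- large `k`
  have hb1 := ev_log (a := 3) (b := 2 * (s : ℝ) ^ 2) (c := 1 / (2 * (Es C R : ℝ)))
    (by norm_num) (by positivity) (by positivity)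
  have hl1 : 0 ≤ Real.log (1 / ι) := Real.log_nonneg (by rw [le_div_iff₀ hι0]; linarith)
  have hl2 : 0 ≤ Real.log (2 / (ι * κ)) := by
    apply Real.log_nonneg
    rw [le_div_iff₀ (by positivity)]
    nlinarith
  have hb2 := ev_log (a := 2 * (Es C R : ℝ) * Real.log (1 / ι)) (b := 0) (c := 1 / 2)
    (by positivity) le_rfl (by positivity)
  have hb3 := ev_log (a := 2 * (Es C R : ℝ) * (H + Real.log (2 / (ι * κ)))) (b := 0)
    (c := 1 / 2) (by positivity) le_rfl (by positivity)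
  have hb4 := ev_log (a := 8 * (H + 1) * Real.log s + (3 + Real.log 2)) (b := 1)
    (c := w R / (32 * (Es C R : ℝ))) (by positivity) zero_le_one
    (by have := hw0 R; positivity)
  have hb5 := ev_log (a := 6) (b := 0) (c := 1 / 2) (by norm_num) le_rfl (by positivity)
  obtain ⟨k₀, hk₀⟩ := eventually_atTop.1 (hb1.and (hb2.and (hb3.and (hb4.and hb5))))
  refine ⟨s, by omega, k₀, ?_⟩
  intro k hk V _ c W hsym hNo3 hNo4 hFl hpal hsqrt hWn
  obtain ⟨hb1, hb2, hb3, hb4, hb5⟩ := hk₀ k hk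
  obtain ⟨N0, hN0⟩ : ∃ N0 : ℝ, N0 = Real.log W.card := ⟨_, rfl⟩
  rw [← hN0] at hpal hsqrt
  have hN0pos : 0 < N0 := by linarith
  -- the record set
  obtain ⟨J, hJ⟩ : ∃ J : Finset (Σ _ : ℕ, ℕ),
      J = (range R).sigma fun j => range (8 * Es C j + 1) := ⟨_, rfl⟩
  obtain ⟨T, hT⟩ : ∃ T : (Σ _ : ℕ, ℕ) → ℝ,
      ∀ p, T p = Real.exp (p.2 * N0 / (8 * (Es C p.1 : ℕ))) := ⟨_, fun p => rfl⟩
  obtain ⟨U, hUW, hUn, hWU, hRec⟩ := hRCT V k c W (Σ _ : ℕ, ℕ) J T (fun p => w p.1) θ hθ hWn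
    (by rw [← hN0]; exact hpal)
    (fun p _ => ⟨by rw [hT]; exact Real.exp_pos _, (hw0 _).le⟩)
    (by
      rw [hJ, Finset.sum_sigma]
      have h1 : ∀ j ∈ range R, ∑ _i ∈ range (8 * Es C j + 1), w j = θ / (2 * R) := by
        intro j _
        rw [Finset.sum_const, card_range, nsmul_eq_mul, hw]
        have := hE0 j
        push_cast
        field_simp
      rw [Finset.sum_congr rfl h1, Finset.sum_const, card_range, nsmul_eq_mul]
      have : (0 : ℝ) < R := by linarith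
      apply le_of_eq
      field_simp)
  rw [← hN0] at hWU
  obtain ⟨N, hN⟩ : ∃ N : ℝ, N = Real.log U.card := ⟨_, rfl⟩
  rw [← hN] at hWU
  have hUW' : U.card ≤ W.card := card_le_card hUW
  have hUpos : 0 < U.card := card_pos.2 hUn
  have hUpos' : (0 : ℝ) < U.card := by exact_mod_cast hUpos
  have hNN0 : N ≤ N0 := by
    rw [hN, hN0]
    exact Real.log_le_log hUpos' (by exact_mod_cast hUW')
  have hNk : √(k : ℝ) / 2 ≤ N := by linarith
  have hN6 : 6 ≤ N := by linarith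
  have hNpos : 0 < N := by linarith
  have hU16 : 16 ≤ U.card := by
    by_contra hcon
    have h1 : U.card ≤ 16 := by omega
    have h3 : (U.card : ℝ) ≤ 16 := by exact_mod_cast h1
    have h2 : Real.log U.card ≤ 3 := (Real.log_le_log hUpos' h3).trans log16'
    linarith
  have hFlU : Flat c U s (L * s) := fun S hS hc => hFl S (hS.trans hUW) hc
  have hNo3U : No3 c U := fun x hx y hy z hz => hNo3 x (hUW hx) y (hUW hy) z (hUW hz)
  have hNo4U : No4 c U := fun x hx x' hx' y hy y' hy' =>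
    hNo4 x (hUW hx) x' (hUW hx') y (hUW hy) y' (hUW hy')
  -- the starting pair
  obtain ⟨A0, B0, e0, hA0, hB0, hdis0, hA0n, hB0n, hlA0, hlB0, hd0⟩ :=
    hSPR V k c U s L hsym hFlU (by linarith) (by linarith) hs2 hU16
  rw [← hN, ] at hlA0 hlB0
  have hstart : 3 + 2 * (s : ℝ) ^ 2 * Real.log ((k : ℝ) + 1) ≤ N / (Es C R : ℝ) := by
    have h1 : 1 / (2 * (Es C R : ℝ)) * √(k : ℝ) ≤ N / (Es C R : ℝ) := by
      rw [div_mul_eq_mul_div, one_mul, div_le_div_iff₀ (by positivity) hER0]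
      nlinarith
    linarith
  have hNdiv : ∀ D : ℝ, (1 - 1 / D) * N = N - N / D := fun D => by ring
  obtain ⟨j, hjR, A, B, e, M, hA, hB, hdis, hAn, hBn, hlA, hlB, hqM, hM1, hd, hsat⟩ :=
    hSAP V k c U (fun j => 1 / (Es C j : ℝ)) R q ι A0 B0 e0
      (fun j => by
        apply one_div_le_one_div_of_le (hE0 j)
        have h1 := hE4s j
        have h2 := hE0 j
        linarith)
      hq0 hι0 hRι hA0 hB0 hdis0 hA0n hB0n
      (by
        show (1 - 1 / (Es C R : ℝ)) * Real.log U.card ≤ _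
        rw [← hN, hNdiv]
        linarith)
      (by
        show (1 - 1 / (Es C R : ℝ)) * Real.log U.card ≤ _
        rw [← hN, hNdiv]
        linarith)
      (by rw [hq]; exact hd0)
  simp only [← hN] at hlA hlB hsat
  obtain ⟨D, hD⟩ : ∃ D : ℝ, D = (Es C j : ℝ) := ⟨_, rfl⟩
  have hD4 : 4 ≤ D := by
    rw [hD]
    exact hE4 j
  have hD0 : 0 < D := by linarith
  have hDR : D ≤ (Es C R : ℝ) := by
    rw [hD]
    exact hEm j hjR.le
  have hD' : ((Es C (j + 1) : ℕ) : ℝ) = C * D ^ 2 := by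
    rw [hEs, hD]
  have hD4' : 4 * D ≤ C * D ^ 2 := by
    rw [← hD', hD]
    exact hE4s j
  obtain ⟨i, hi, hi1, hi2⟩ := hGRD N N0 (Es C j) (by have := Es_four hC4 j; omega) hN0pos
    hNN0 hWU
  rw [← hD] at hi1 hi2
  obtain ⟨t, ht⟩ : ∃ t : ℝ, t = i * N0 / (8 * D) := ⟨_, rfl⟩
  rw [← ht] at hi1 hi2
  have hTt : T ⟨j, i⟩ = Real.exp t := by
    rw [hT, ht, hD]
  have hRecj := hRec ⟨j, i⟩ (by
    rw [hJ, Finset.mem_sigma]
    exact ⟨mem_range.2 hjR, mem_range.2 (show i < 8 * Es C j + 1 by omega)⟩)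
  rw [hTt] at hRecj
  have hRecj' : RecT c U (Real.exp t) (w j) := hRecj
  have ht0 : 0 ≤ t := by
    rw [ht]
    positivity
  -- numerical facts at this scale
  have hf1 : Real.log (1 / ι) ≤ N / (2 * D) := by
    rw [le_div_iff₀ (by positivity)]
    have h1 : Real.log (1 / ι) * (2 * D) ≤ Real.log (1 / ι) * (2 * (Es C R : ℝ)) :=
      mul_le_mul_of_nonneg_left (by linarith) hl1
    linarith
  have hf2 : H + Real.log (2 / (ι * κ)) ≤ N / (2 * D) := by
    rw [le_div_iff₀ (by positivity)]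
    have h1 : (H + Real.log (2 / (ι * κ))) * (2 * D) ≤
        (H + Real.log (2 / (ι * κ))) * (2 * (Es C R : ℝ)) :=
      mul_le_mul_of_nonneg_left (by linarith) (by positivity)
    linarith
  have hinv : Real.log (1 / ι) = - Real.log ι := by rw [one_div, Real.log_inv]
  have hinv2 : Real.log (2 / (ι * κ)) = - Real.log (ι * κ / 2) := by
    rw [← Real.log_inv, inv_div]
  have hCD : N / (C * D ^ 2) ≤ N / (4 * D) :=
    div_le_div_of_nonneg_left hNpos.le (by positivity) hD4'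
  have hM0 : 0 < M := lt_of_lt_of_le hq0 hqM
  have hquart : N / (4 * D) = N / D / 4 := by
    field_simp
  have hhalf : N / (2 * D) = N / D / 2 := by
    field_simp
  have hlA' : N - N / (C * D ^ 2) ≤ Real.log A.card := by
    rw [hD', hNdiv] at hlA
    exact hlA
  have hlB' : N - N / (C * D ^ 2) ≤ Real.log B.card := by
    rw [hD', hNdiv] at hlB
    exact hlB
  have hND0 : 0 < N / D := by positivity
  -- `log (2 k)`
  have hk1 : 1 ≤ k := by
    have hx : Nonempty (Fin k) := ⟨e⟩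
    exact Fin.pos_iff_nonempty.2 hx
  have hk1' : (1 : ℝ) ≤ k := by exact_mod_cast hk1
  have hl2k : Real.log (2 * k) ≤ Real.log 2 + Real.log ((k : ℝ) + 1) := by
    rw [Real.log_mul (by norm_num) (by linarith)]
    have := Real.log_le_log (show (0 : ℝ) < k by linarith) (show (k : ℝ) ≤ k + 1 by linarith)
    linarith
  have hl2k0 : 0 ≤ Real.log (2 * k) := Real.log_nonneg (by linarith)
  have hwj0 := hw0 j
  have hc : 8 * (H + 1) * Real.log s + w j * (Real.log (2 * k) + 3) ≤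
      w j * (N / (16 * D)) := by
    have h1 : w j * (Real.log (2 * k) + 3) ≤ 1 * (Real.log (2 * k) + 3) :=
      mul_le_mul_of_nonneg_right (hw1 j) (by linarith)
    have h2 : w R / (32 * (Es C R : ℝ)) * √(k : ℝ) ≤ w R * (N / (16 * (Es C R : ℝ))) := by
      have h3 : w R / (32 * (Es C R : ℝ)) * √(k : ℝ) =
          w R * (√(k : ℝ) / 2 / (16 * (Es C R : ℝ))) := by
        field_simp
        ring
      rw [h3]
      apply mul_le_mul_of_nonneg_left _ (hw0 R).le
      exact div_le_div_of_nonneg_right hNk (by positivity)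
    have h4 : w R * (N / (16 * (Es C R : ℝ))) ≤ w j * (N / (16 * D)) := by
      apply mul_le_mul (hwm j hjR.le) _ (by positivity) hwj0.le
      exact div_le_div_of_nonneg_left hNpos.le (by positivity) (by linarith)
    linarith
  have hlast := last_ineq (θ := θ) (R := R) (D := D) (C := C) (ls := Real.log s) (N := N)
    (w := w j) (Hc := H + 1) (lk := Real.log (2 * k) + 3) (t := t) hθ hR1 hD4 hC4' hNpos
    (by rw [hw, hD]) hCr hc hi2
  refine hSTG V k c U A B e s L M ι ρ κ (w j) (Real.exp t) (Real.exp ((1 - 1 / D) * N))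
    (N / (C * D ^ 2)) hsym hNo3U hNo4U hFlU hL (by linarith) hA hB hdis hAn hBn hι0 ?_ hM0 hM1
    hκ0 ?_ (hw1 j) hρ0 hρ1 ?_ hRecj' (Real.one_le_exp ht0) (Real.exp_pos _) ?_ ?_ ?_ hd ?_
    (by rw [← hN]; exact hlA') (by rw [← hN]; exact hlB') ?_
  · rw [hι]
    have : q ^ 4 ≤ M ^ 4 := pow_le_pow_left₀ hq0.le hqM 4
    linarith
  · rw [hκs]
    have := hwm j hjR.le
    linarith
  · rw [hρ]
    linarith
  · rw [← Real.exp_log hι0, ← Real.exp_add]
    apply Real.exp_le_exp.2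
    rw [hNdiv]
    have h1 : (1 - 1 / (2 * D)) * N = N - N / (2 * D) := by rw [hNdiv]
    rw [h1] at hi1
    rw [hinv] at hf1
    linarith
  · rw [Real.log_exp, hNdiv, ← hH]
    rw [hinv2] at hf2
    linarith
  · rw [Real.log_exp, hNdiv, ← hH]
    rw [hinv2] at hf2
    linarith
  · intro A' hA' B' hB' hcA hcB
    have hA'0 : (0 : ℝ) < A'.card := lt_of_lt_of_le (Real.exp_pos _) hcA
    have hB'0 : (0 : ℝ) < B'.card := lt_of_lt_of_le (Real.exp_pos _) hcB
    refine hsat A' (hA'.trans hA) B' (hB'.trans hB)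
      (disjoint_of_subset_left hA' (disjoint_of_subset_right hB' hdis))
      (card_pos.1 (by exact_mod_cast hA'0)) (card_pos.1 (by exact_mod_cast hB'0)) ?_ ?_
    · rw [← hD]
      exact (Real.le_log_iff_exp_le hA'0).2 hcA
    · rw [← hD]
      exact (Real.le_log_iff_exp_le hB'0).2 hcB
  · rw [← hN, Real.log_exp, ← hH, Real.log_pow]
    have h1 : N - t - Real.log (2 * k) - 3 = N - t - (Real.log (2 * k) + 3) := by ring
    rw [h1]
    have h2 : N / (C * D ^ 2) + H + 1 = N / (C * D ^ 2) + (H + 1) := by ring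
    rw [h2]
    push_cast
    exact hlast

end Pool.Agent.EGF.H32
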