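import Pool.Agent.EGF.StmtsV

/-!
# Squad EGF, row FAN
-/

set_option autoImplicit false

open Finset

namespace Pool.Agent.EGF.H32

theorem fan : FanStmt := by
  classical
  intro V _ k c g A B q N hq hq1 hN hA hB hd h
  set T : ℕ := ⌈q / 2 * (N : ℝ)⌉₊ with hT
  set D : V → Finset V := fun x => B.filter fun y => c x y = g with hD
  have hsum : ((prs c g A B).card : ℝ) = ∑ x ∈ A, ((D x).card : ℝ) := by
    have h1 : (prs c g A B).card = ∑ x ∈ A, (D x).card := by
      unfold prs
      rw [Finset.card_filter, Finset.sum_product]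
      refine Finset.sum_congr rfl fun x _ => ?_
      rw [hD]
      simp only
      rw [Finset.card_filter]
    rw [h1]; push_cast; rfl
  set Z : Finset V := A.filter fun x => T ≤ (D x).card with hZ
  have hNpos : (0 : ℝ) < N := by exact_mod_cast hN
  have hDN : ∀ x, ((D x).card : ℝ) ≤ N := by
    intro x
    have : (D x).card ≤ B.card := Finset.card_le_card (Finset.filter_subset _ _)
    rw [hB] at this
    exact_mod_cast this
  have hle : ((prs c g A B).card : ℝ) ≤ N * (Z.card : ℝ) + q / 2 * N * ((A \ Z).card : ℝ) := by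
    rw [hsum]
    have hZA : Z ⊆ A := Finset.filter_subset _ _
    rw [← Finset.sum_sdiff hZA, add_comm]
    refine add_le_add ?_ ?_
    · calc ∑ x ∈ Z, ((D x).card : ℝ) ≤ ∑ _x ∈ Z, (N : ℝ) := Finset.sum_le_sum fun x _ => hDN x
        _ = N * (Z.card : ℝ) := by rw [Finset.sum_const, nsmul_eq_mul, mul_comm]
    · calc ∑ x ∈ A \ Z, ((D x).card : ℝ) ≤ ∑ _x ∈ A \ Z, (q / 2 * N : ℝ) := by
            refine Finset.sum_le_sum fun x hx => ?_
            rw [Finset.mem_sdiff] at hx
            have hx2 : ¬ T ≤ (D x).card := fun h' => hx.2 (Finset.mem_filter.mpr ⟨hx.1, h'⟩)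
            have hx3 : (D x).card < T := by omega
            exact (Nat.lt_ceil.mp hx3).le
        _ = q / 2 * N * ((A \ Z).card : ℝ) := by
            rw [Finset.sum_const, nsmul_eq_mul, mul_comm]
  have hAZ : ((A \ Z).card : ℝ) ≤ N := by
    have : (A \ Z).card ≤ A.card := Finset.card_le_card Finset.sdiff_subset
    rw [hA] at this
    exact_mod_cast this
  have hZc : q / 2 * N ≤ (Z.card : ℝ) := by
    have h1 : q * (N * N) ≤ N * (Z.card : ℝ) + q / 2 * N * N := by
      refine le_trans h (le_trans hle ?_)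
      have : q / 2 * N * ((A \ Z).card : ℝ) ≤ q / 2 * N * N :=
        mul_le_mul_of_nonneg_left hAZ (by positivity)
      linarith
    have h2 : N * (q / 2 * N) ≤ N * (Z.card : ℝ) := by nlinarith
    exact le_of_mul_le_mul_left h2 hNpos
  have hTZ : T ≤ Z.card := Nat.ceil_le.mpr hZc
  obtain ⟨X0, hX0, hX0c⟩ := Finset.exists_subset_card_eq hTZ
  have hsel : ∀ x, ∃ R : Finset V, x ∈ X0 → (R ⊆ D x ∧ R.card = T) := by
    intro x
    by_cases hx : x ∈ X0
    · have hx2 : T ≤ (D x).card := (Finset.mem_filter.mp (hX0 hx)).2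
      obtain ⟨R, hR, hRc⟩ := Finset.exists_subset_card_eq hx2
      exact ⟨R, fun _ => ⟨hR, hRc⟩⟩
    · exact ⟨∅, fun h' => absurd h' hx⟩
  choose R hR using hsel
  refine ⟨X0, hX0.trans (Finset.filter_subset _ _), R, hX0c, ?_⟩
  intro x hx
  obtain ⟨h1, h2⟩ := hR x hx
  refine ⟨h1.trans (Finset.filter_subset _ _), h2, ?_⟩
  intro w hw
  have hw2 := Finset.mem_filter.mp (h1 hw)
  refine ⟨?_, hw2.2⟩
  rintro rfl
  exact Finset.disjoint_left.mp hd ((hX0.trans (Finset.filter_subset _ _)) hx) hw2.1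

end Pool.Agent.EGF.H32
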