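import Pool.Agent.EGF.StmtsV

/-!
# Squad EGF, row SHR
-/

set_option autoImplicit false

open Finset

namespace Pool.Agent.EGF.H32

theorem shr_sel {V : Type} [DecidableEq V] (f : V → ℝ) (N : ℕ) :
    ∀ (n : ℕ) (A : Finset V), A.card = n → N ≤ n →
      ∃ A' ⊆ A, A'.card = N ∧ (N : ℝ) * ∑ x ∈ A, f x ≤ (A.card : ℝ) * ∑ x ∈ A', f x := by
  intro n
  induction n with
  | zero =>
    intro A hA hN
    have hN0 : N = 0 := by omega
    subst hN0
    refine ⟨∅, Finset.empty_subset _, by simp, ?_⟩
    simp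
  | succ n ih =>
    intro A hA hN
    rcases Nat.lt_or_ge N (n + 1) with hlt | hge
    · -- remove a minimal element
      have hne : A.Nonempty := by
        rw [← Finset.card_pos, hA]; omega
      obtain ⟨x, hx, hmin⟩ := Finset.exists_min_image A f hne
      have hcard : (A.erase x).card = n := by
        rw [Finset.card_erase_of_mem hx, hA]; rfl
      obtain ⟨A', hA', hA'c, hA's⟩ := ih (A.erase x) hcard (by omega)
      have hsum : ∑ y ∈ A, f y = f x + ∑ y ∈ A.erase x, f y := (Finset.add_sum_erase A f hx).symm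
      have hfx : (A.card : ℝ) * f x ≤ ∑ y ∈ A, f y := by
        calc (A.card : ℝ) * f x = ∑ _y ∈ A, f x := by rw [Finset.sum_const, nsmul_eq_mul]
          _ ≤ ∑ y ∈ A, f y := Finset.sum_le_sum fun y hy => hmin y hy
      rcases Nat.eq_zero_or_pos n with hn0 | hnpos
      · have hN0 : N = 0 := by omega
        subst hN0
        refine ⟨∅, Finset.empty_subset _, by simp, ?_⟩
        simp
      · refine ⟨A', hA'.trans (Finset.erase_subset _ _), hA'c, ?_⟩
        rw [hcard] at hA's
        have hAc : (A.card : ℝ) = (n : ℝ) + 1 := by rw [hA]; push_cast; rfl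
        rw [hAc] at hfx ⊢
        have hnR : (0 : ℝ) < n := by exact_mod_cast hnpos
        have hNR : (0 : ℝ) ≤ N := Nat.cast_nonneg _
        set S := ∑ y ∈ A, f y with hS
        set E := ∑ y ∈ A.erase x, f y with hE
        set P := ∑ y ∈ A', f y with hP
        -- (n+1) E >= n S
        have h1 : (n : ℝ) * S ≤ ((n : ℝ) + 1) * E := by nlinarith
        have h2 : (n : ℝ) * ((N : ℝ) * S) ≤ (n : ℝ) * (((n : ℝ) + 1) * P) := by
          calc (n : ℝ) * ((N : ℝ) * S) = (N : ℝ) * ((n : ℝ) * S) := by ring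
            _ ≤ (N : ℝ) * (((n : ℝ) + 1) * E) := mul_le_mul_of_nonneg_left h1 hNR
            _ = ((n : ℝ) + 1) * ((N : ℝ) * E) := by ring
            _ ≤ ((n : ℝ) + 1) * ((n : ℝ) * P) := mul_le_mul_of_nonneg_left hA's (by positivity)
            _ = (n : ℝ) * (((n : ℝ) + 1) * P) := by ring
        exact le_of_mul_le_mul_left h2 hnR
    · have : N = n + 1 := by omega
      subst this
      exact ⟨A, Finset.Subset.refl _, hA, by rw [hA]⟩

theorem shr_left {V : Type} [DecidableEq V] {k : ℕ} (c : V → V → Fin k) (g : Fin k)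
    (A B : Finset V) :
    ((prs c g A B).card : ℝ) = ∑ x ∈ A, ((B.filter fun y => c x y = g).card : ℝ) := by
  classical
  have h1 : (prs c g A B).card = ∑ x ∈ A, (B.filter fun y => c x y = g).card := by
    unfold prs
    rw [Finset.card_filter, Finset.sum_product]
    refine Finset.sum_congr rfl fun x _ => ?_
    simp only
    rw [Finset.card_filter]
  rw [h1]; push_cast; rfl

theorem shr_right {V : Type} [DecidableEq V] {k : ℕ} (c : V → V → Fin k) (g : Fin k)
    (A B : Finset V) :
    ((prs c g A B).card : ℝ) = ∑ y ∈ B, ((A.filter fun x => c x y = g).card : ℝ) := by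
  classical
  have h1 : (prs c g A B).card = ∑ y ∈ B, (A.filter fun x => c x y = g).card := by
    unfold prs
    rw [Finset.card_filter, Finset.sum_product_right]
    refine Finset.sum_congr rfl fun x _ => ?_
    simp only
    rw [Finset.card_filter]
  rw [h1]; push_cast; rfl

theorem shr : ShrStmt := by
  classical
  intro V _ k c g A B q N hN hA hB h
  obtain ⟨A', hA', hA'c, hA's⟩ :=
    shr_sel (fun x => ((B.filter fun y => c x y = g).card : ℝ)) N A.card A rfl hA
  rw [← shr_left c g A B, ← shr_left c g A' B] at hA's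
  obtain ⟨B', hB', hB'c, hB's⟩ :=
    shr_sel (fun y => ((A'.filter fun x => c x y = g).card : ℝ)) N B.card B rfl hB
  rw [← shr_right c g A' B, ← shr_right c g A' B'] at hB's
  refine ⟨A', hA', B', hB', hA'c, hB'c, ?_⟩
  have hNR : (0 : ℝ) < N := by exact_mod_cast hN
  have hAR : (0 : ℝ) < A.card := by exact_mod_cast lt_of_lt_of_le hN hA
  have hBR : (0 : ℝ) < B.card := by exact_mod_cast lt_of_lt_of_le hN hB
  have h1 : (N : ℝ) * ((N : ℝ) * (q * (A.card * B.card))) ≤
      (A.card : ℝ) * ((B.card : ℝ) * ((prs c g A' B').card : ℝ)) := by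
    calc (N : ℝ) * ((N : ℝ) * (q * (A.card * B.card)))
        ≤ (N : ℝ) * ((N : ℝ) * ((prs c g A B).card : ℝ)) := by
          refine mul_le_mul_of_nonneg_left (mul_le_mul_of_nonneg_left h hNR.le) hNR.le
      _ ≤ (N : ℝ) * ((A.card : ℝ) * ((prs c g A' B).card : ℝ)) :=
          mul_le_mul_of_nonneg_left hA's hNR.le
      _ = (A.card : ℝ) * ((N : ℝ) * ((prs c g A' B).card : ℝ)) := by ring
      _ ≤ (A.card : ℝ) * ((B.card : ℝ) * ((prs c g A' B').card : ℝ)) :=
          mul_le_mul_of_nonneg_left hB's hAR.le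
  have h2 : (A.card * B.card : ℝ) * (q * (N * N)) ≤
      (A.card * B.card : ℝ) * ((prs c g A' B').card : ℝ) := by
    calc (A.card * B.card : ℝ) * (q * (N * N))
        = (N : ℝ) * ((N : ℝ) * (q * (A.card * B.card))) := by ring
      _ ≤ _ := h1
      _ = (A.card * B.card : ℝ) * ((prs c g A' B').card : ℝ) := by ring
  exact le_of_mul_le_mul_left h2 (by positivity)

end Pool.Agent.EGF.H32
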